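import Mathlib
import Pool.Agent.Helper46.NB.Stmts

/-! Project NB, row C1: concentration of `XX`, from ST_MG. -/

set_option autoImplicit false

namespace Pool.Agent.Helper58.NB

open Finset
open scoped Classical
open Pool.Agent.Helper46.NB

noncomputable section

/-- the edge `i` meets `f` -/
def Mt {V : Type} (f i : Sym2 V) : Prop := ∃ u ∈ f, u ∈ i

/-- relevance of the colour `c` for the edge `i` -/
def QQ {V : Type} {N : ℕ} (E : Finset (Sym2 V)) (pick : Sym2 V → Fin N → Option ℕ) (f i : Sym2 V)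
    (ω : Sym2 V → Fin N) (c : ℕ) : Prop :=
  i ∈ E ∧ (Mt f i ∨ ∃ u ∈ f, ∃ e ∈ E, u ∈ e ∧ Pk pick ω e c ∧
    (∀ e' ∈ E, u ∈ e' → Pk pick ω e' c → e' = e) ∧ Adj e i)

/-- relevant values -/
def RR {V : Type} {N : ℕ} (E : Finset (Sym2 V)) (L : Sym2 V → Finset ℕ)
    (pick : Sym2 V → Fin N → Option ℕ) (f i : Sym2 V) (ω : Sym2 V → Fin N) : Finset (Fin N) :=
  univ.filter fun a => ∃ c ∈ L f, pick i a = some c ∧ QQ E pick f i ω c

/-- rank -/
def rk {V : Type} (f i : Sym2 V) : ℕ := if Mt f i then 0 else 1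

/-- the colour `c` is lost at an endpoint of `f` -/
def LL {V : Type} {N : ℕ} (E : Finset (Sym2 V)) (pick : Sym2 V → Fin N → Option ℕ) (f : Sym2 V)
    (ω : Sym2 V → Fin N) (c : ℕ) : Prop := ∃ v ∈ f, Lost E pick ω v c

lemma Pk_congr {V : Type} {N : ℕ} {pick : Sym2 V → Fin N → Option ℕ} {ω ω' : Sym2 V → Fin N}
    {e : Sym2 V} (h : ω e = ω' e) (c : ℕ) : Pk pick ω e c ↔ Pk pick ω' e c := by
  unfold Pk
  rw [h]

lemma Ret_mono {V : Type} {N : ℕ} {E : Finset (Sym2 V)} {pick : Sym2 V → Fin N → Option ℕ}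
    {ω ω' : Sym2 V → Fin N} {c : ℕ} (h : ∀ e ∈ E, (Pk pick ω e c ↔ Pk pick ω' e c)) {e : Sym2 V}
    (hr : Ret E pick ω e c) : Ret E pick ω' e c :=
  ⟨hr.1, (h e hr.1).1 hr.2.1, fun e' he' ha hp => hr.2.2 e' he' ha ((h e' he').2 hp)⟩

lemma LL_mono {V : Type} {N : ℕ} {E : Finset (Sym2 V)} {pick : Sym2 V → Fin N → Option ℕ}
    {ω ω' : Sym2 V → Fin N} {c : ℕ} (h : ∀ e ∈ E, (Pk pick ω e c ↔ Pk pick ω' e c)) {f : Sym2 V}
    (hr : LL E pick f ω c) : LL E pick f ω' c := by
  obtain ⟨v, hv, e, hve, hre⟩ := hr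
  exact ⟨v, hv, e, hve, Ret_mono h hre⟩

lemma LL_same {V : Type} {N : ℕ} {E : Finset (Sym2 V)} {pick : Sym2 V → Fin N → Option ℕ}
    {ω ω' : Sym2 V → Fin N} {c : ℕ} (h : ∀ e ∈ E, (Pk pick ω e c ↔ Pk pick ω' e c)) {f : Sym2 V} :
    LL E pick f ω c ↔ LL E pick f ω' c :=
  ⟨LL_mono h, LL_mono fun e he => (h e he).symm⟩

lemma QQ_mono {V : Type} {N : ℕ} {E : Finset (Sym2 V)} {pick : Sym2 V → Fin N → Option ℕ}
    {f i : Sym2 V} {ω ω' : Sym2 V → Fin N} (h : ∀ j, rk f j < rk f i → ω j = ω' j) {c : ℕ}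
    (hq : QQ E pick f i ω c) : QQ E pick f i ω' c := by
  refine ⟨hq.1, ?_⟩
  by_cases hm : Mt f i
  · exact Or.inl hm
  · have h1 : ∀ e u, u ∈ f → u ∈ e → ω e = ω' e := by
      intro e u hu hue
      apply h
      have hme : Mt f e := ⟨u, hu, hue⟩
      unfold rk
      rw [if_pos hme, if_neg hm]
      exact Nat.zero_lt_one
    rcases hq.2 with h2 | ⟨u, hu, e, he, hue, hp, hun, ha⟩
    · exact absurd h2 hm
    · right
      refine ⟨u, hu, e, he, hue, (Pk_congr (h1 e u hu hue) c).1 hp, ?_, ha⟩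
      intro e' he' hue' hp'
      exact hun e' he' hue' ((Pk_congr (h1 e' u hu hue') c).2 hp')

lemma RR_congr {V : Type} {N : ℕ} {E : Finset (Sym2 V)} (L : Sym2 V → Finset ℕ)
    {pick : Sym2 V → Fin N → Option ℕ}
    {f i : Sym2 V} {ω ω' : Sym2 V → Fin N} (h : ∀ j, rk f j < rk f i → ω j = ω' j) :
    RR E L pick f i ω = RR E L pick f i ω' := by
  unfold RR
  ext a
  simp only [mem_filter, mem_univ, true_and]
  constructor
  · rintro ⟨c, hc, hp, hq⟩
    exact ⟨c, hc, hp, QQ_mono h hq⟩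
  · rintro ⟨c, hc, hp, hq⟩
    exact ⟨c, hc, hp, QQ_mono (fun j hj => (h j hj).symm) hq⟩

lemma LL_step {V : Type} {N : ℕ} {E : Finset (Sym2 V)} {L : Sym2 V → Finset ℕ}
    {pick : Sym2 V → Fin N → Option ℕ} {f i : Sym2 V} {ω ω' : Sym2 V → Fin N} {c : ℕ}
    (hω : ∀ j, j ≠ i → ω' j = ω j)
    (hc : c ∈ L f) (hi : i ∈ E) (hm : ¬ Mt f i) (ha : ω' i ∉ RR E L pick f i ω)
    (hL : LL E pick f ω c) : LL E pick f ω' c := by
  obtain ⟨v, hv, e, hve, heE, hp, hn⟩ := hL
  have hei : e ≠ i := by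
    rintro rfl
    exact hm ⟨v, hv, hve⟩
  have hother : ∀ j, j ≠ i → (Pk pick ω' j c ↔ Pk pick ω j c) := by
    intro j hj
    exact Pk_congr (hω j hj) c
  refine ⟨v, hv, e, hve, heE, (hother e hei).2 hp, ?_⟩
  intro e' he' hadj hp'
  by_cases h : e' = i
  · subst h
    apply ha
    unfold RR
    simp only [mem_filter, mem_univ, true_and]
    refine ⟨c, hc, hp', hi, Or.inr ⟨v, hv, e, heE, hve, hp, ?_, hadj⟩⟩
    intro e'' he'' hve'' hp''
    by_contra hne
    exact hn e'' he'' ⟨fun h => hne h.symm, v, hve, hve''⟩ hp''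
  · exact hn e' he' hadj ((hother e' h).1 hp')

lemma LL_irrel {V : Type} {N : ℕ} {E : Finset (Sym2 V)} {L : Sym2 V → Finset ℕ}
    {pick : Sym2 V → Fin N → Option ℕ} {f i : Sym2 V} {ω ω' : Sym2 V → Fin N} {c : ℕ}
    (hω : ∀ j, j ≠ i → ω' j = ω j)
    (hc : c ∈ L f) (h0 : ω i ∉ RR E L pick f i ω) (ha : ω' i ∉ RR E L pick f i ω) :
    LL E pick f ω' c ↔ LL E pick f ω c := by
  have hother : ∀ j, j ≠ i → (Pk pick ω' j c ↔ Pk pick ω j c) := by
    intro j hj
    exact Pk_congr (hω j hj) c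
  by_cases hi : i ∈ E
  · by_cases hm : Mt f i
    · have hnp : ∀ b, b ∉ RR E L pick f i ω → pick i b ≠ some c := by
        intro b hb hbc
        apply hb
        unfold RR
        simp only [mem_filter, mem_univ, true_and]
        exact ⟨c, hc, hbc, hi, Or.inl hm⟩
      apply LL_same
      intro e he
      by_cases h : e = i
      · subst h
        unfold Pk
        constructor
        · intro h; exact absurd h (hnp _ ha)
        · intro h; exact absurd h (hnp _ h0)
      · exact hother e h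
    · constructor
      · refine LL_step (L := L) (fun j hj => (hω j hj).symm) hc hi hm ?_
        rw [RR_congr (ω' := ω) L]
        · exact h0
        · intro j hj
          have hne : j ≠ i := by
            rintro rfl
            exact lt_irrefl _ hj
          exact hω j hne
      · exact LL_step hω hc hi hm ha
  · apply LL_same
    intro e he
    apply hother
    rintro rfl
    exact hi he

lemma XX_eq {V : Type} {N : ℕ} (E : Finset (Sym2 V)) (L : Sym2 V → Finset ℕ)
    (pick : Sym2 V → Fin N → Option ℕ) (f : Sym2 V) (ω : Sym2 V → Fin N) :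
    XX E L pick f ω = (#((L f).filter (LL E pick f ω)) : ℝ) := rfl

lemma card_filter_some {x : Option ℕ} (S : Finset ℕ) : #(S.filter fun c => x = some c) ≤ 1 := by
  apply card_le_one.2
  intro a ha b hb
  have h1 := (mem_filter.1 ha).2
  have h2 := (mem_filter.1 hb).2
  rw [h1] at h2
  exact Option.some.inj h2

lemma XX_le {V : Type} {N : ℕ} (E : Finset (Sym2 V)) (L : Sym2 V → Finset ℕ)
    (pick : Sym2 V → Fin N → Option ℕ) (f i : Sym2 V) (ω ω' : Sym2 V → Fin N)
    (h : ∀ j, j ≠ i → ω j = ω' j) :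
    XX E L pick f ω ≤ XX E L pick f ω' + 2 := by
  rw [XX_eq, XX_eq]
  have hsub : (L f).filter (LL E pick f ω) ⊆ (L f).filter (LL E pick f ω') ∪
      (((L f).filter fun c => pick i (ω i) = some c) ∪
        ((L f).filter fun c => pick i (ω' i) = some c)) := by
    intro c hc
    obtain ⟨hcL, hcc⟩ := mem_filter.1 hc
    by_cases h1 : pick i (ω i) = some c
    · exact mem_union_right _ (mem_union_left _ (mem_filter.2 ⟨hcL, h1⟩))
    by_cases h2 : pick i (ω' i) = some c
    · exact mem_union_right _ (mem_union_right _ (mem_filter.2 ⟨hcL, h2⟩))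
    refine mem_union_left _ (mem_filter.2 ⟨hcL, ?_⟩)
    refine LL_mono ?_ hcc
    intro e he
    by_cases hei : e = i
    · subst hei
      unfold Pk
      constructor
      · intro h; exact absurd h h1
      · intro h; exact absurd h h2
    · exact Pk_congr (h e hei) c
  have h1 := card_le_card hsub
  have h2 := card_union_le ((L f).filter (LL E pick f ω'))
    (((L f).filter fun c => pick i (ω i) = some c) ∪
        ((L f).filter fun c => pick i (ω' i) = some c))
  have h3 := card_union_le ((L f).filter fun c => pick i (ω i) = some c)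
    ((L f).filter fun c => pick i (ω' i) = some c)
  have h4 := card_filter_some (x := pick i (ω i)) (L f)
  have h5 := card_filter_some (x := pick i (ω' i)) (L f)
  have h6 : #((L f).filter (LL E pick f ω)) ≤ #((L f).filter (LL E pick f ω')) + 2 := by omega
  exact_mod_cast h6

lemma card_RR_le {V : Type} {N : ℕ} {E : Finset (Sym2 V)} {L : Sym2 V → Finset ℕ}
    {pick : Sym2 V → Fin N → Option ℕ} (hpick : IsPick E L N pick) (f i : Sym2 V)
    (ω : Sym2 V → Fin N) :
    #(RR E L pick f i ω) ≤ #((L f).filter fun c => c ∈ L i ∧ QQ E pick f i ω c) := by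
  by_cases hi : i ∈ E
  · have hsub : RR E L pick f i ω ⊆ ((L f).filter fun c => c ∈ L i ∧ QQ E pick f i ω c).biUnion
        (fun c => univ.filter fun a => pick i a = some c) := by
      intro a ha
      unfold RR at ha
      obtain ⟨c, hc, hp, hq⟩ := (mem_filter.1 ha).2
      refine mem_biUnion.2 ⟨c, mem_filter.2 ⟨hc, (hpick i hi).2 a c hp, hq⟩, ?_⟩
      exact mem_filter.2 ⟨mem_univ _, hp⟩
    refine (card_le_card hsub).trans (card_biUnion_le.trans ?_)
    refine (sum_le_sum (g := fun _ => 1) ?_).trans ?_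
    · intro c hc
      exact le_of_eq ((hpick i hi).1 c (mem_filter.1 hc).2.1)
    · simp
  · have h0 : RR E L pick f i ω = ∅ := by
      unfold RR
      apply filter_eq_empty_iff.2
      rintro a - ⟨c, hc, hp, hq⟩
      exact hi hq.1
    rw [h0]
    simp

lemma card_QQ_le {V : Type} [Fintype V] {N : ℕ} {E : Finset (Sym2 V)} {L : Sym2 V → Finset ℕ}
    {pick : Sym2 V → Fin N → Option ℕ} {t : ℕ} (ht : ∀ v c, #(T E L v c) ≤ t)
    (f : Sym2 V) (ω : Sym2 V → Fin N) (c : ℕ) :
    #(univ.filter fun i : Sym2 V => c ∈ L i ∧ QQ E pick f i ω c) ≤ 4 * t := by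
  induction f using Sym2.ind with
  | _ v w =>
  have key : ∀ u, ∃ S : Finset (Sym2 V), #S ≤ t ∧ ∀ i ∈ E, c ∈ L i → u ∉ i →
      (∃ e ∈ E, u ∈ e ∧ Pk pick ω e c ∧
        (∀ e' ∈ E, u ∈ e' → Pk pick ω e' c → e' = e) ∧ Adj e i) → i ∈ S := by
    intro u
    by_cases hex : ∃ e ∈ E, u ∈ e ∧ Pk pick ω e c ∧ (∀ e' ∈ E, u ∈ e' → Pk pick ω e' c → e' = e)
    · obtain ⟨e, he, hue, hp, hun⟩ := hex
      obtain ⟨x, rfl⟩ := hue
      refine ⟨T E L x c, ht x c, ?_⟩
      rintro i hi hci hui ⟨e', he', hue', hp', -, hadj⟩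
      have h1 : e' = s(u, x) := hun e' he' hue' hp'
      subst h1
      obtain ⟨-, y, hy, hyi⟩ := hadj
      rcases Sym2.mem_iff.1 hy with rfl | rfl
      · exact absurd hyi hui
      · unfold T
        exact mem_filter.2 ⟨hi, hyi, hci⟩
    · refine ⟨∅, by simp, ?_⟩
      rintro i hi hci hui ⟨e', he', hue', hp', hun', hadj⟩
      exact absurd ⟨e', he', hue', hp', hun'⟩ hex
  obtain ⟨Sv, hSv, hv⟩ := key v
  obtain ⟨Sw, hSw, hw⟩ := key w
  have hsub : (univ.filter fun i : Sym2 V => c ∈ L i ∧ QQ E pick s(v, w) i ω c) ⊆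
      (T E L v c ∪ T E L w c) ∪ (Sv ∪ Sw) := by
    intro i hi
    obtain ⟨hci, hiE, hq⟩ := (mem_filter.1 hi).2
    by_cases hvi : v ∈ i
    · exact mem_union_left _ (mem_union_left _ (mem_filter.2 ⟨hiE, hvi, hci⟩))
    by_cases hwi : w ∈ i
    · exact mem_union_left _ (mem_union_right _ (mem_filter.2 ⟨hiE, hwi, hci⟩))
    apply mem_union_right
    rcases hq with ⟨u, hu, hui⟩ | ⟨u, hu, hq⟩
    · rcases Sym2.mem_iff.1 hu with rfl | rfl
      · exact absurd hui hvi
      · exact absurd hui hwi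
    · rcases Sym2.mem_iff.1 hu with rfl | rfl
      · exact mem_union_left _ (hv i hiE hci hvi hq)
      · exact mem_union_right _ (hw i hiE hci hwi hq)
  have h1 := card_le_card hsub
  have h2 := card_union_le (T E L v c ∪ T E L w c) (Sv ∪ Sw)
  have h3 := card_union_le (T E L v c) (T E L w c)
  have h4 := card_union_le Sv Sw
  have h5 := ht v c
  have h6 := ht w c
  omega

lemma sum_RR_le {V : Type} [Fintype V] {N : ℕ} {E : Finset (Sym2 V)} {L : Sym2 V → Finset ℕ}
    {pick : Sym2 V → Fin N → Option ℕ} (hpick : IsPick E L N pick) {t : ℕ}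
    (ht : ∀ v c, #(T E L v c) ≤ t) (f : Sym2 V) (ω : Sym2 V → Fin N) :
    ∑ i, #(RR E L pick f i ω) ≤ #(L f) * (4 * t) := by
  calc ∑ i, #(RR E L pick f i ω)
      ≤ ∑ i, #((L f).filter fun c => c ∈ L i ∧ QQ E pick f i ω c) :=
        sum_le_sum fun i _ => card_RR_le hpick f i ω
    _ = ∑ i, ∑ c ∈ L f, (if c ∈ L i ∧ QQ E pick f i ω c then 1 else 0) := by
        refine sum_congr rfl fun i _ => ?_
        rw [card_filter]
    _ = ∑ c ∈ L f, ∑ i, (if c ∈ L i ∧ QQ E pick f i ω c then 1 else 0) := sum_comm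
    _ = ∑ c ∈ L f, #(univ.filter fun i : Sym2 V => c ∈ L i ∧ QQ E pick f i ω c) := by
        refine sum_congr rfl fun c _ => ?_
        rw [card_filter]
    _ ≤ ∑ c ∈ L f, 4 * t := sum_le_sum fun c _ => card_QQ_le ht f ω c
    _ = #(L f) * (4 * t) := by rw [sum_const, smul_eq_mul]

lemma conv_inst {V : Type} [Fintype V] {N : ℕ} (i1 i2 : DecidableEq (Sym2 V))
    (X : (Sym2 V → Fin N) → ℝ) (s B : ℝ)
    (h : (#((@univ (Sym2 V → Fin N) (@Pi.instFintype _ _ i1 _ _)).filter fun ω =>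
      (∑ ω' ∈ @univ (Sym2 V → Fin N) (@Pi.instFintype _ _ i1 _ _), X ω') /
        ((@Fintype.card (Sym2 V → Fin N) (@Pi.instFintype _ _ i1 _ _) : ℕ) : ℝ) + s ≤ X ω) : ℝ) ≤
      B * ((@Fintype.card (Sym2 V → Fin N) (@Pi.instFintype _ _ i1 _ _) : ℕ) : ℝ)) :
    (#((@univ (Sym2 V → Fin N) (@Pi.instFintype _ _ i2 _ _)).filter fun ω =>
      (∑ ω' ∈ @univ (Sym2 V → Fin N) (@Pi.instFintype _ _ i2 _ _), X ω') /
        ((@Fintype.card (Sym2 V → Fin N) (@Pi.instFintype _ _ i2 _ _) : ℕ) : ℝ) + s ≤ X ω) : ℝ) ≤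
      B * ((@Fintype.card (Sym2 V → Fin N) (@Pi.instFintype _ _ i2 _ _) : ℕ) : ℝ) := by
  have : i1 = i2 := Subsingleton.elim _ _
  subst this
  exact h

/-- row C1 -/
theorem st_C1 (hMG : ST_MG) : ST_C1 := by
  intro V _ E L l t D pick hl ht htl hreg hpick f hf hLf s hs0 hs1
  have : Nonempty (Fin (4 * l)) := ⟨⟨0, by omega⟩⟩
  have htpos : (0 : ℝ) < t := by exact_mod_cast ht
  have hcol : ∀ v c, #(T E L v c) ≤ t := by
    intro v c
    rcases hreg.col v c with h | h
    · rw [h]; simp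
    · exact h.le
  have h := hMG (Sym2 V) (Fin (4 * l)) (XX E L pick f) (rk f) (RR E L pick f) 2 t (by norm_num)
    htpos
    (fun i ω ω' h => RR_congr L h)
    (fun i ω a => abs_sub_le_iff.2
      ⟨sub_le_iff_le_add.2 ((XX_le E L pick f i _ _
        (fun j hj => by unfold Function.update; rw [dif_neg hj])).trans_eq (add_comm _ _)),
      sub_le_iff_le_add.2 ((XX_le E L pick f i _ _
        (fun j hj => by unfold Function.update; rw [dif_neg hj])).trans_eq (add_comm _ _))⟩)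
    (fun i ω a h0 ha => by
      rw [XX_eq, XX_eq]
      apply congrArg Nat.cast
      apply congrArg card
      refine filter_congr fun c hc => LL_irrel (i := i) ?_ hc h0 ?_
      · intro j hj
        unfold Function.update
        rw [dif_neg hj]
      · unfold Function.update
        rw [dif_pos rfl]
        exact ha)
    (fun ω => by
      have h1 := sum_RR_le hpick hcol f ω
      rw [hLf] at h1
      rw [Fintype.card_fin]
      have h2 : ((∑ i, #(RR E L pick f i ω) : ℕ) : ℝ) ≤ ((l * (4 * t) : ℕ) : ℝ) := by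
        exact_mod_cast h1
      push_cast at h2 ⊢
      linarith)
    s hs0 hs1
  have he : (4 * (2 : ℝ) ^ 2 * (t : ℝ)) = 16 * t := by ring
  rw [he] at h
  have h' := conv_inst _ (fun a b => Sym2.instDecidableEq a b) _ _ _ h
  have hcard : (0 : ℝ) < (Fintype.card (Sym2 V → Fin (4 * l)) : ℝ) := by
    exact_mod_cast Fintype.card_pos
  unfold Pr
  rw [div_le_iff₀ hcard]
  refine le_trans (le_of_eq ?_) h'
  unfold Av
  congr

end

end Pool.Agent.Helper58.NB
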